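import Pool.Agent.W809.ZQ.Stm

/-!
Project ZQ (MP_3a9d0e_gt), part ADD: the Lie–Trotter formula; the Lie algebra of a closed subgroup
of `U(n)` is closed under addition.
-/

set_option autoImplicit false

open Set Filter Topology

namespace Pool.Agent.W577.ZQ

open Pool.Agent.W809.ZQ

section general

variable {𝔸 : Type*} [NormedRing 𝔸] [NormedAlgebra ℝ 𝔸] [CompleteSpace 𝔸]

/-- telescoping -/
theorem tel (A B : 𝔸) (C C' : ℝ) (k : ℕ) (hA : ∀ i, ‖A ^ i‖ ≤ C) (hB : ∀ i, i ≤ k → ‖B ^ i‖ ≤ C')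
    (j : ℕ) : ∀ r, j + r ≤ k → ‖(A ^ j - B ^ j) * B ^ r‖ ≤ j * (C * ‖A - B‖ * C') := by
  induction j with
  | zero =>
    intro r _
    simp
  | succ j ih =>
    intro r hr
    have e : (A ^ (j + 1) - B ^ (j + 1)) * B ^ r =
        A ^ j * (A - B) * B ^ r + (A ^ j - B ^ j) * B ^ (r + 1) := by
      rw [pow_succ A, pow_succ B j, pow_succ' B r]
      noncomm_ring
    have h1 : ‖A ^ j * (A - B) * B ^ r‖ ≤ C * ‖A - B‖ * C' := by
      have hC : 0 ≤ C := (norm_nonneg _).trans (hA 0)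
      calc ‖A ^ j * (A - B) * B ^ r‖ ≤ ‖A ^ j * (A - B)‖ * ‖B ^ r‖ := norm_mul_le _ _
        _ ≤ (‖A ^ j‖ * ‖A - B‖) * ‖B ^ r‖ :=
          mul_le_mul_of_nonneg_right (norm_mul_le _ _) (norm_nonneg _)
        _ ≤ (C * ‖A - B‖) * C' :=
          mul_le_mul (mul_le_mul_of_nonneg_right (hA j) (norm_nonneg _)) (hB r (by omega))
            (norm_nonneg _) (mul_nonneg hC (norm_nonneg _))
    have h2 := ih (r + 1) (by omega)
    rw [e]
    refine (norm_add_le _ _).trans ?_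
    push_cast
    linarith

/-- the Lie–Trotter formula -/
theorem trotter (X Y : 𝔸) (C : ℝ) (hC : ∀ (s : ℝ) (i : ℕ),
    ‖(NormedSpace.exp (s • X) * NormedSpace.exp (s • Y)) ^ i‖ ≤ C) :
    Tendsto (fun k : ℕ => (NormedSpace.exp ((1 / ((k : ℝ) + 1)) • X) *
      NormedSpace.exp ((1 / ((k : ℝ) + 1)) • Y)) ^ (k + 1)) atTop (𝓝 (NormedSpace.exp (X + Y))) := by
  letI : NormedAlgebra ℚ 𝔸 := NormedAlgebra.restrictScalars ℚ ℝ 𝔸
  have hC0 : 0 ≤ C := (norm_nonneg _).trans (hC 0 0)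
  -- bound for the powers of `B`
  have hcont : Continuous fun s : ℝ => NormedSpace.exp (s • (X + Y)) :=
    (NormedSpace.exp_continuous (𝔸 := 𝔸)).comp (by fun_prop)
  obtain ⟨C', hC'⟩ := (isCompact_Icc (a := (0 : ℝ)) (b := 1)).exists_bound_of_continuousOn
    hcont.continuousOn
  have hC'0 : 0 ≤ C' := (norm_nonneg _).trans (hC' 0 ⟨le_rfl, zero_le_one⟩)
  have hBp : ∀ (k i : ℕ), NormedSpace.exp ((1 / ((k : ℝ) + 1)) • (X + Y)) ^ i =
      NormedSpace.exp (((i : ℝ) / ((k : ℝ) + 1)) • (X + Y)) := by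
    intro k i
    rw [← NormedSpace.exp_nsmul]
    congr 1
    rw [← Nat.cast_smul_eq_nsmul ℝ, smul_smul]
    congr 1
    ring
  have hB : ∀ (k i : ℕ), i ≤ k + 1 → ‖NormedSpace.exp ((1 / ((k : ℝ) + 1)) • (X + Y)) ^ i‖ ≤ C' := by
    intro k i hi
    rw [hBp]
    apply hC'
    have h1 : (0 : ℝ) < (k : ℝ) + 1 := by positivity
    have h2 : (i : ℝ) ≤ (k : ℝ) + 1 := by exact_mod_cast hi
    exact ⟨by positivity, (div_le_one h1).mpr h2⟩
  -- the difference
  have hd : HasDerivAt (fun s : ℝ => NormedSpace.exp (s • X) * NormedSpace.exp (s • Y) -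
      NormedSpace.exp (s • (X + Y))) 0 0 := by
    have h1 := (hasDerivAt_exp_smul_const X (0 : ℝ)).mul (hasDerivAt_exp_smul_const Y (0 : ℝ))
    have h2 := hasDerivAt_exp_smul_const (X + Y) (0 : ℝ)
    have h3 := h1.sub h2
    simp only [zero_smul, NormedSpace.exp_zero, one_mul, mul_one, sub_self] at h3
    exact h3
  have hs : Tendsto (fun k : ℕ => (1 / ((k : ℝ) + 1))) atTop (𝓝[≠] (0 : ℝ)) := by
    rw [tendsto_nhdsWithin_iff]
    refine ⟨tendsto_one_div_add_atTop_nhds_zero_nat, Eventually.of_forall fun k => ?_⟩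
    have : (0 : ℝ) < 1 / ((k : ℝ) + 1) := by positivity
    exact this.ne'
  have hsl := (hasDerivAt_iff_tendsto_slope.mp hd).comp hs
  have hsl2 : Tendsto (fun k : ℕ => ((k : ℝ) + 1) * ‖NormedSpace.exp ((1 / ((k : ℝ) + 1)) • X) *
      NormedSpace.exp ((1 / ((k : ℝ) + 1)) • Y) -
      NormedSpace.exp ((1 / ((k : ℝ) + 1)) • (X + Y))‖) atTop (𝓝 0) := by
    have h := hsl.norm
    rw [norm_zero] at h
    refine h.congr fun k => ?_
    have hk : (0 : ℝ) < (k : ℝ) + 1 := by positivity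
    simp only [Function.comp, slope, vsub_eq_sub, sub_zero, zero_smul, NormedSpace.exp_zero,
      mul_one, sub_self, norm_smul, norm_inv, Real.norm_eq_abs, one_div, inv_inv, abs_inv,
      abs_of_pos hk]
  rw [tendsto_iff_norm_sub_tendsto_zero]
  have hlim : Tendsto (fun k : ℕ => C * C' * (((k : ℝ) + 1) *
      ‖NormedSpace.exp ((1 / ((k : ℝ) + 1)) • X) *
      NormedSpace.exp ((1 / ((k : ℝ) + 1)) • Y) -
      NormedSpace.exp ((1 / ((k : ℝ) + 1)) • (X + Y))‖)) atTop (𝓝 0) := by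
    have := hsl2.const_mul (C * C')
    rwa [mul_zero] at this
  refine squeeze_zero (fun _ => norm_nonneg _) (fun k => ?_) hlim
  have h1 := tel (NormedSpace.exp ((1 / ((k : ℝ) + 1)) • X) *
      NormedSpace.exp ((1 / ((k : ℝ) + 1)) • Y))
      (NormedSpace.exp ((1 / ((k : ℝ) + 1)) • (X + Y))) C C' (k + 1) (hC _) (hB k) (k + 1) 0
      le_rfl
  rw [pow_zero, mul_one] at h1
  have h2 : NormedSpace.exp ((1 / ((k : ℝ) + 1)) • (X + Y)) ^ (k + 1) =
      NormedSpace.exp (X + Y) := by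
    rw [hBp]
    congr 1
    have hk : (k : ℝ) + 1 ≠ 0 := by positivity
    push_cast
    rw [div_self hk, one_smul]
  rw [h2] at h1
  refine h1.trans (le_of_eq ?_)
  push_cast
  ring

end general

open scoped Matrix.Norms.L2Operator in
theorem add : S_ADD := by
  intro n N hN X hX Y hY t
  obtain ⟨C, hC⟩ := (isCompact_unitary n).exists_bound_of_continuousOn
    (f := fun A : Mt n => A) continuous_id.continuousOn
  have hmem : ∀ s : ℝ, ∃ u ∈ N, (u : Mt n) =
      NormedSpace.exp (s • (t • X)) * NormedSpace.exp (s • (t • Y)) := by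
    intro s
    obtain ⟨u, hu, e⟩ := hX (s * t)
    obtain ⟨v, hv, e'⟩ := hY (s * t)
    refine ⟨u * v, N.mul_mem hu hv, ?_⟩
    rw [Submonoid.coe_mul, e, e', smul_smul, smul_smul]
  have hpow : ∀ (s : ℝ) (i : ℕ), ∃ u ∈ N, (u : Mt n) =
      (NormedSpace.exp (s • (t • X)) * NormedSpace.exp (s • (t • Y))) ^ i := by
    intro s i
    obtain ⟨u, hu, e⟩ := hmem s
    exact ⟨u ^ i, N.pow_mem hu i, by rw [← e, SubmonoidClass.coe_pow]⟩
  have hbd : ∀ (s : ℝ) (i : ℕ),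
      ‖(NormedSpace.exp (s • (t • X)) * NormedSpace.exp (s • (t • Y))) ^ i‖ ≤ C := by
    intro s i
    obtain ⟨u, -, e⟩ := hpow s i
    rw [← e]
    exact hC _ u.2
  have htr := trotter (t • X) (t • Y) C hbd
  have hcl : IsClosed ((fun u : U n => (u : Mt n)) '' (N : Set (U n))) :=
    (hN.isCompact.image continuous_subtype_val).isClosed
  have hin := hcl.mem_of_tendsto htr (Eventually.of_forall fun k => by
    obtain ⟨u, hu, e⟩ := hpow (1 / ((k : ℝ) + 1)) (k + 1)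
    exact ⟨u, hu, e⟩)
  obtain ⟨u, hu, e⟩ := hin
  refine ⟨u, hu, ?_⟩
  rw [smul_add]
  exact e

end Pool.Agent.W577.ZQ

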